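import Mathlib

/-!
# Poisson algebras of potentials: definitions

`k[x,y,z]` is `MvPolynomial (Fin 3) k`. For a potential `Ω` the bracket of `f` and `g` is the
determinant of the three gradients. It descends to the quotient by `Ω - ξ`, and a tensor product of
Poisson algebras carries the sum of the brackets of its factors.
-/

set_option autoImplicit false

open MvPolynomial
open scoped TensorProduct

noncomputable section

namespace Pool.Agent.N1.Poi

universe u

variable {k : Type u} [Field k]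

/-- The matrix whose rows are the gradients of `f`, `g` and `Ω`. -/
def gradMatrix (Ω f g : MvPolynomial (Fin 3) k) : Matrix (Fin 3) (Fin 3) (MvPolynomial (Fin 3) k) :=
  Matrix.of ![fun j => pderiv j f, fun j => pderiv j g, fun j => pderiv j Ω]

/-- The bracket `{f, g} = det (∇f, ∇g, ∇Ω)` on `k[x,y,z]`. -/
def jac (Ω f g : MvPolynomial (Fin 3) k) : MvPolynomial (Fin 3) k := (gradMatrix Ω f g).det

/-- `Ω` is an i.s. potential: the quotient of `k[x,y,z]` by the ideal generated by the three partial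
derivatives of `Ω` is a finite-dimensional `k`-vector space. -/
def IsIsolatedSingularity (Ω : MvPolynomial (Fin 3) k) : Prop :=
  Module.Finite k (MvPolynomial (Fin 3) k ⧸ Ideal.span (Set.range fun j : Fin 3 => pderiv j Ω))

/-- The algebra `P_{Ω-ξ} = k[x,y,z]/(Ω - ξ)`. -/
def PotQuot (Ω : MvPolynomial (Fin 3) k) (ξ : k) : Type u :=
  MvPolynomial (Fin 3) k ⧸ Ideal.span {Ω - C ξ}

instance (Ω : MvPolynomial (Fin 3) k) (ξ : k) : CommRing (PotQuot Ω ξ) :=
  inferInstanceAs (CommRing (MvPolynomial (Fin 3) k ⧸ Ideal.span {Ω - C ξ}))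

instance (Ω : MvPolynomial (Fin 3) k) (ξ : k) : Algebra k (PotQuot Ω ξ) :=
  inferInstanceAs (Algebra k (MvPolynomial (Fin 3) k ⧸ Ideal.span {Ω - C ξ}))

/-- The projection `k[x,y,z] → P_{Ω-ξ}`. -/
def pmk (Ω : MvPolynomial (Fin 3) k) (ξ : k) : MvPolynomial (Fin 3) k →ₐ[k] PotQuot Ω ξ :=
  Ideal.Quotient.mkₐ k (Ideal.span {Ω - C ξ})

theorem pmk_surjective (Ω : MvPolynomial (Fin 3) k) (ξ : k) : Function.Surjective (pmk Ω ξ) :=
  Ideal.Quotient.mkₐ_surjective k _

theorem pmk_eq_zero {Ω : MvPolynomial (Fin 3) k} {ξ : k} {f : MvPolynomial (Fin 3) k} :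
    pmk Ω ξ f = 0 ↔ f ∈ Ideal.span {Ω - C ξ} := Ideal.Quotient.eq_zero_iff_mem

theorem pmk_eq {Ω : MvPolynomial (Fin 3) k} {ξ : k} {f g : MvPolynomial (Fin 3) k} :
    pmk Ω ξ f = pmk Ω ξ g ↔ f - g ∈ Ideal.span {Ω - C ξ} := by
  rw [← pmk_eq_zero, map_sub, sub_eq_zero]

theorem jac_eq (Ω f g : MvPolynomial (Fin 3) k) : jac Ω f g =
    pderiv 0 f * pderiv 1 g * pderiv 2 Ω - pderiv 0 f * pderiv 2 g * pderiv 1 Ω
      - pderiv 1 f * pderiv 0 g * pderiv 2 Ω + pderiv 1 f * pderiv 2 g * pderiv 0 Ω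
      + pderiv 2 f * pderiv 0 g * pderiv 1 Ω - pderiv 2 f * pderiv 1 g * pderiv 0 Ω := by
  rw [jac, gradMatrix, Matrix.det_fin_three]
  simp

theorem jac_add_left (Ω f f' g : MvPolynomial (Fin 3) k) :
    jac Ω (f + f') g = jac Ω f g + jac Ω f' g := by
  simp only [jac_eq, map_add]; ring

theorem jac_add_right (Ω f g g' : MvPolynomial (Fin 3) k) :
    jac Ω f (g + g') = jac Ω f g + jac Ω f g' := by
  simp only [jac_eq, map_add]; ring

theorem jac_smul_left (Ω : MvPolynomial (Fin 3) k) (c : k) (f g : MvPolynomial (Fin 3) k) :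
    jac Ω (c • f) g = c • jac Ω f g := by
  simp only [jac_eq, Derivation.map_smul]
  simp only [MvPolynomial.smul_eq_C_mul]
  ring

theorem jac_smul_right (Ω : MvPolynomial (Fin 3) k) (c : k) (f g : MvPolynomial (Fin 3) k) :
    jac Ω f (c • g) = c • jac Ω f g := by
  simp only [jac_eq, Derivation.map_smul]
  simp only [MvPolynomial.smul_eq_C_mul]
  ring

theorem jac_mul_left (Ω f f' g : MvPolynomial (Fin 3) k) :
    jac Ω (f * f') g = f * jac Ω f' g + f' * jac Ω f g := by
  simp only [jac_eq, Derivation.leibniz, smul_eq_mul]; ring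

theorem jac_mul_right (Ω f g g' : MvPolynomial (Fin 3) k) :
    jac Ω f (g * g') = g * jac Ω f g' + g' * jac Ω f g := by
  simp only [jac_eq, Derivation.leibniz, smul_eq_mul]; ring

theorem jac_self_left (Ω g : MvPolynomial (Fin 3) k) : jac Ω Ω g = 0 := by
  simp only [jac_eq]; ring

theorem jac_self_right (Ω f : MvPolynomial (Fin 3) k) : jac Ω f Ω = 0 := by
  simp only [jac_eq]; ring

theorem jac_C_left (Ω g : MvPolynomial (Fin 3) k) (c : k) : jac Ω (C c) g = 0 := by
  simp only [jac_eq, pderiv_C]; ring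

theorem jac_C_right (Ω f : MvPolynomial (Fin 3) k) (c : k) : jac Ω f (C c) = 0 := by
  simp only [jac_eq, pderiv_C]; ring

theorem jac_neg_left (Ω f g : MvPolynomial (Fin 3) k) : jac Ω (-f) g = - jac Ω f g := by
  simp only [jac_eq, map_neg]; ring

theorem jac_neg_right (Ω f g : MvPolynomial (Fin 3) k) : jac Ω f (-g) = - jac Ω f g := by
  simp only [jac_eq, map_neg]; ring

theorem jac_sub_left (Ω f f' g : MvPolynomial (Fin 3) k) :
    jac Ω (f - f') g = jac Ω f g - jac Ω f' g := by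
  simp only [jac_eq, map_sub]; ring

theorem jac_sub_right (Ω f g g' : MvPolynomial (Fin 3) k) :
    jac Ω f (g - g') = jac Ω f g - jac Ω f g' := by
  simp only [jac_eq, map_sub]; ring

variable (Ω : MvPolynomial (Fin 3) k) (ξ : k)

theorem jac_mem_left {f : MvPolynomial (Fin 3) k} (g : MvPolynomial (Fin 3) k)
    (hf : f ∈ Ideal.span {Ω - C ξ}) : jac Ω f g ∈ Ideal.span {Ω - C ξ} := by
  obtain ⟨q, rfl⟩ := Ideal.mem_span_singleton.1 hf
  rw [jac_mul_left, jac_sub_left, jac_self_left, jac_C_left, sub_zero, mul_zero, add_zero]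
  exact Ideal.mul_mem_right _ _ (Ideal.mem_span_singleton_self _)

theorem jac_mem_right {g : MvPolynomial (Fin 3) k} (f : MvPolynomial (Fin 3) k)
    (hg : g ∈ Ideal.span {Ω - C ξ}) : jac Ω f g ∈ Ideal.span {Ω - C ξ} := by
  obtain ⟨q, rfl⟩ := Ideal.mem_span_singleton.1 hg
  rw [jac_mul_right, jac_sub_right, jac_self_right, jac_C_right, sub_zero, mul_zero, add_zero]
  exact Ideal.mul_mem_right _ _ (Ideal.mem_span_singleton_self _)

/-- The bracket of two classes of `P_{Ω-ξ}`: the class of the bracket of representatives (chosen by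
`Function.surjInv`; see `quotFun_mk` for the independence of the choice). -/
def quotFun (a b : PotQuot Ω ξ) : PotQuot Ω ξ :=
  pmk Ω ξ (jac Ω (Function.surjInv (pmk_surjective Ω ξ) a) (Function.surjInv (pmk_surjective Ω ξ) b))

theorem quotFun_mk (f g : MvPolynomial (Fin 3) k) :
    quotFun Ω ξ (pmk Ω ξ f) (pmk Ω ξ g) = pmk Ω ξ (jac Ω f g) := by
  rw [quotFun, pmk_eq]
  set f' := Function.surjInv (pmk_surjective Ω ξ) (pmk Ω ξ f) with hf'
  set g' := Function.surjInv (pmk_surjective Ω ξ) (pmk Ω ξ g) with hg'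
  have h1 : f' - f ∈ Ideal.span {Ω - C ξ} := by
    rw [← pmk_eq, hf']
    exact Function.surjInv_eq _ _
  have h2 : g' - g ∈ Ideal.span {Ω - C ξ} := by
    rw [← pmk_eq, hg']
    exact Function.surjInv_eq _ _
  have h3 : jac Ω f' g' - jac Ω f g = jac Ω (f' - f) g' + jac Ω f (g' - g) := by
    rw [jac_sub_left, jac_sub_right]; ring
  rw [h3]
  exact Ideal.add_mem _ (jac_mem_left Ω ξ _ h1) (jac_mem_right Ω ξ _ h2)

/-- The Poisson bracket of `P_{Ω-ξ}`, as a `k`-bilinear map. -/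
def potBracket : PotQuot Ω ξ →ₗ[k] PotQuot Ω ξ →ₗ[k] PotQuot Ω ξ :=
  LinearMap.mk₂ k (quotFun Ω ξ)
    (fun a a' b => by
      obtain ⟨f, rfl⟩ := pmk_surjective Ω ξ a
      obtain ⟨f', rfl⟩ := pmk_surjective Ω ξ a'
      obtain ⟨g, rfl⟩ := pmk_surjective Ω ξ b
      rw [← map_add, quotFun_mk, quotFun_mk, quotFun_mk, jac_add_left, map_add])
    (fun c a b => by
      obtain ⟨f, rfl⟩ := pmk_surjective Ω ξ a
      obtain ⟨g, rfl⟩ := pmk_surjective Ω ξ b
      rw [← map_smul, quotFun_mk, quotFun_mk, jac_smul_left, map_smul])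
    (fun a b b' => by
      obtain ⟨f, rfl⟩ := pmk_surjective Ω ξ a
      obtain ⟨g, rfl⟩ := pmk_surjective Ω ξ b
      obtain ⟨g', rfl⟩ := pmk_surjective Ω ξ b'
      rw [← map_add, quotFun_mk, quotFun_mk, quotFun_mk, jac_add_right, map_add])
    (fun c a b => by
      obtain ⟨f, rfl⟩ := pmk_surjective Ω ξ a
      obtain ⟨g, rfl⟩ := pmk_surjective Ω ξ b
      rw [← map_smul, quotFun_mk, quotFun_mk, jac_smul_right, map_smul])

@[simp] theorem potBracket_mk (f g : MvPolynomial (Fin 3) k) :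
    potBracket Ω ξ (pmk Ω ξ f) (pmk Ω ξ g) = pmk Ω ξ (jac Ω f g) := quotFun_mk Ω ξ f g

section tensor

variable {ι : Type} [Fintype ι] [DecidableEq ι] (B : ι → Type u) [∀ i, CommRing (B i)]
  [∀ i, Algebra k (B i)]

/-- The bracket of a tensor product of algebras `B i` with brackets `br i`:
`{⊗ bᵢ, ⊗ bᵢ'} = ∑ i, (⊗_{j ≠ i} bⱼ bⱼ') ⊗ {bᵢ, bᵢ'}`. -/
def tensorBracket (br : ∀ i, B i →ₗ[k] B i →ₗ[k] B i) :
    (⨂[k] i, B i) →ₗ[k] (⨂[k] i, B i) →ₗ[k] (⨂[k] i, B i) :=
  ∑ i, PiTensorProduct.map₂ (Function.update (fun j => LinearMap.mul k (B j)) i (br i))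

theorem tensorBracket_tprod (br : ∀ i, B i →ₗ[k] B i →ₗ[k] B i) (a b : ∀ i, B i) :
    tensorBracket B br (PiTensorProduct.tprod k a) (PiTensorProduct.tprod k b) =
      ∑ i, PiTensorProduct.tprod k (Function.update (fun j => a j * b j) i (br i (a i) (b i))) := by
  simp only [tensorBracket, LinearMap.sum_apply, PiTensorProduct.map₂_tprod_tprod]
  refine Finset.sum_congr rfl fun i _ => ?_
  congr 1
  funext j
  by_cases h : j = i
  · subst h
    simp
  · simp [Function.update_of_ne h]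

end tensor

/-- An algebra with a bracket is Dixmier when each injective algebra endomorphism which preserves the
bracket is bijective. -/
def IsDixmier {B : Type u} [CommRing B] [Algebra k B] (br : B →ₗ[k] B →ₗ[k] B) : Prop :=
  ∀ φ : B →ₐ[k] B, (∀ a b, φ (br a b) = br (φ a) (φ b)) → Function.Injective φ →
    Function.Bijective φ

end Pool.Agent.N1.Poi
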