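import Mathlib
import Pool.Agent.N1.Poi.Defs

set_option autoImplicit false

open MvPolynomial
open scoped TensorProduct

noncomputable section

namespace Pool.Agent.N1.Poi

universe u

section general

variable {σ : Type} {R : Type*} [CommRing R]

theorem hc_hc_mul {i b N : ℕ} {f g : MvPolynomial σ R} (hf : f.IsHomogeneous i)
    (hg : g.IsHomogeneous b) : homogeneousComponent N (f * g) = if N = i + b then f * g else 0 :=
  homogeneousComponent_of_mem (hf.mul hg)

/-- Component of a product with a homogeneous polynomial. -/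
theorem hc_mul_right {a b : ℕ} (f : MvPolynomial σ R) {g : MvPolynomial σ R}
    (hg : g.IsHomogeneous b) :
    homogeneousComponent (a + b) (f * g) = homogeneousComponent a f * g := by
  conv_lhs => rw [← sum_homogeneousComponent f, Finset.sum_mul, map_sum]
  have h1 : ∀ i ∈ Finset.range (f.totalDegree + 1),
      homogeneousComponent (a + b) (homogeneousComponent i f * g) =
        if i = a then homogeneousComponent a f * g else 0 := by
    intro i _
    rw [hc_hc_mul (homogeneousComponent_isHomogeneous i f) hg]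
    by_cases h : i = a
    · subst h; simp
    · rw [if_neg (by omega), if_neg h]
  rw [Finset.sum_congr rfl h1, Finset.sum_ite_eq']
  split_ifs with h
  · rfl
  · rw [Finset.mem_range, not_lt] at h
    rw [homogeneousComponent_eq_zero a f (by omega), zero_mul]

theorem hc_mul_of_lt {b N : ℕ} (f : MvPolynomial σ R) {g : MvPolynomial σ R}
    (hg : g.IsHomogeneous b) (hN : N < b) : homogeneousComponent N (f * g) = 0 := by
  conv_lhs => rw [← sum_homogeneousComponent f, Finset.sum_mul, map_sum]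
  refine Finset.sum_eq_zero fun i _ => ?_
  rw [hc_hc_mul (homogeneousComponent_isHomogeneous i f) hg, if_neg (by omega)]

/-- Top component of a product. -/
theorem hc_mul_top {a b : ℕ} {f g : MvPolynomial σ R} (hf : f.totalDegree ≤ a)
    (hg : g.totalDegree ≤ b) : homogeneousComponent (a + b) (f * g) =
      homogeneousComponent a f * homogeneousComponent b g := by
  conv_lhs => rw [← sum_homogeneousComponent g, Finset.mul_sum, map_sum]
  have h1 : ∀ j ∈ Finset.range (g.totalDegree + 1),
      homogeneousComponent (a + b) (f * homogeneousComponent j g) =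
        if j = b then homogeneousComponent a f * homogeneousComponent b g else 0 := by
    intro j hj
    rw [Finset.mem_range] at hj
    have h2 : a + b = (a + b - j) + j := by omega
    rw [h2, hc_mul_right f (homogeneousComponent_isHomogeneous j g)]
    by_cases h : j = b
    · subst h; simp
    · rw [if_neg h, homogeneousComponent_eq_zero (a + b - j) f (by omega), zero_mul]
  rw [Finset.sum_congr rfl h1, Finset.sum_ite_eq']
  split_ifs with h
  · rfl
  · rw [Finset.mem_range, not_lt] at h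
    rw [homogeneousComponent_eq_zero b g (by omega), mul_zero]

/-- Removing the top component lowers the degree. -/
theorem totalDegree_sub_hc {m : ℕ} {f : MvPolynomial σ R} (hf : f.totalDegree ≤ m + 1) :
    (f - homogeneousComponent (m + 1) f).totalDegree ≤ m := by
  rw [totalDegree, Finset.sup_le_iff]
  intro d hd
  rw [mem_support_iff, coeff_sub, coeff_homogeneousComponent] at hd
  by_cases h : d.degree = m + 1
  · rw [if_pos h, sub_self] at hd
    exact absurd rfl hd
  · rw [if_neg h, sub_zero] at hd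
    have h1 : d.degree ≤ f.totalDegree := le_totalDegree (mem_support_iff.2 hd)
    have h2 : (d.sum fun _ e => e) = d.degree := rfl
    omega

end general

variable {k : Type u} [Field k] {Ω : MvPolynomial (Fin 3) k} {n : ℕ}

theorem top_mem (hΩ : Ω.IsHomogeneous n) (h0 : Ω ≠ 0) (hn : n ≠ 0) (ξ : k) {m : ℕ}
    {f : MvPolynomial (Fin 3) k} (hf : f.totalDegree ≤ m) (hmem : f ∈ Ideal.span {Ω - C ξ}) :
    homogeneousComponent m f ∈ Ideal.span {Ω - C 0} := by
  rw [C_0, sub_zero]
  obtain ⟨q, rfl⟩ := Ideal.mem_span_singleton.1 hmem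
  by_cases hq : q = 0
  · subst hq; simp
  have h1 : homogeneousComponent n (Ω - C ξ) = Ω := by
    rw [map_sub, homogeneousComponent_eq_self hΩ,
      homogeneousComponent_of_mem (isHomogeneous_C (Fin 3) ξ), if_neg hn, sub_zero]
  have h2 : (Ω - C ξ).totalDegree ≤ n := by
    refine (totalDegree_sub _ _).trans ?_
    rw [totalDegree_C]
    simpa using hΩ.totalDegree_le
  have h3 : Ω - C ξ ≠ 0 := by
    intro h
    rw [h, map_zero] at h1
    exact h0 h1.symm
  have h4 : (Ω - C ξ).totalDegree = n := by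
    refine le_antisymm h2 ?_
    by_contra hlt
    rw [not_le] at hlt
    rw [homogeneousComponent_eq_zero _ _ hlt] at h1
    exact h0 h1.symm
  rw [totalDegree_mul_of_isDomain h3 hq, h4] at hf
  have h5 : m = n + (m - n) := by omega
  rw [h5, hc_mul_top h2 (show q.totalDegree ≤ m - n by omega), h1]
  exact Ideal.mul_mem_right _ _ (Ideal.mem_span_singleton_self _)

theorem exists_lower (hΩ : Ω.IsHomogeneous n) (hn : n ≠ 0) (ξ : k) {m : ℕ}
    {f : MvPolynomial (Fin 3) k} (hf : f.totalDegree ≤ m + 1)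
    (hmem : homogeneousComponent (m + 1) f ∈ Ideal.span {Ω - C 0}) :
    ∃ f' : MvPolynomial (Fin 3) k, f'.totalDegree ≤ m ∧ f - f' ∈ Ideal.span {Ω - C ξ} := by
  rw [C_0, sub_zero] at hmem
  obtain ⟨q, hq⟩ := Ideal.mem_span_singleton.1 hmem
  by_cases hmn : m + 1 < n
  · refine ⟨f, ?_, by simp⟩
    have h1 : homogeneousComponent (m + 1) f = 0 := by
      have h2 := hc_mul_of_lt q hΩ hmn
      rw [mul_comm, ← hq, homogeneousComponent_of_mem
        (homogeneousComponent_mem (m + 1) f), if_pos rfl] at h2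
      exact h2
    have h3 := totalDegree_sub_hc hf
    rwa [h1, sub_zero] at h3
  · have h1 : homogeneousComponent (m + 1) f = homogeneousComponent (m + 1 - n) q * Ω := by
      have h2 := hc_mul_right (a := m + 1 - n) q hΩ
      rw [mul_comm q, ← hq, Nat.sub_add_cancel (by omega), homogeneousComponent_of_mem
        (homogeneousComponent_mem (m + 1) f), if_pos rfl] at h2
      exact h2
    refine ⟨f - homogeneousComponent (m + 1) f + C ξ * homogeneousComponent (m + 1 - n) q, ?_, ?_⟩
    · refine (totalDegree_add _ _).trans (max_le (totalDegree_sub_hc hf) ?_)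
      refine (totalDegree_mul _ _).trans ?_
      rw [totalDegree_C, zero_add]
      refine (homogeneousComponent_isHomogeneous _ q).totalDegree_le.trans (by omega)
    · have h2 : f - (f - homogeneousComponent (m + 1) f +
          C ξ * homogeneousComponent (m + 1 - n) q) =
          (Ω - C ξ) * homogeneousComponent (m + 1 - n) q := by
        rw [h1]; ring
      rw [h2]
      exact Ideal.mul_mem_right _ _ (Ideal.mem_span_singleton_self _)

/-- The subspace of `P_{Ω-ξ}` of classes of polynomials of degree at most `m`. -/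
def le (Ω : MvPolynomial (Fin 3) k) (ξ : k) (m : ℕ) : Submodule k (PotQuot Ω ξ) :=
  (restrictTotalDegree (Fin 3) k m).map (pmk Ω ξ).toLinearMap

theorem mem_le {ξ : k} {m : ℕ} {x : PotQuot Ω ξ} :
    x ∈ le Ω ξ m ↔ ∃ f : MvPolynomial (Fin 3) k, f.totalDegree ≤ m ∧ pmk Ω ξ f = x := by
  rw [le, Submodule.mem_map]
  simp only [mem_restrictTotalDegree]
  rfl

instance (ξ : k) (m : ℕ) : Module.Finite k (le Ω ξ m) := by
  rw [le]; infer_instance

theorem mk_mem_le {ξ : k} {m : ℕ} {f : MvPolynomial (Fin 3) k} (hf : f.totalDegree ≤ m) :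
    pmk Ω ξ f ∈ le Ω ξ m := mem_le.2 ⟨f, hf, rfl⟩

theorem le_mono {ξ : k} {m m' : ℕ} (h : m ≤ m') : le Ω ξ m ≤ le Ω ξ m' := by
  intro x hx
  obtain ⟨f, hf, rfl⟩ := mem_le.1 hx
  exact mk_mem_le (hf.trans h)

theorem exists_mem_le {ξ : k} (x : PotQuot Ω ξ) : ∃ m, x ∈ le Ω ξ m := by
  obtain ⟨f, rfl⟩ := pmk_surjective Ω ξ x
  exact ⟨_, mk_mem_le le_rfl⟩

theorem mul_mem_le {ξ : k} {a b : ℕ} {x y : PotQuot Ω ξ} (hx : x ∈ le Ω ξ a) (hy : y ∈ le Ω ξ b) :
    x * y ∈ le Ω ξ (a + b) := by
  obtain ⟨f, hf, rfl⟩ := mem_le.1 hx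
  obtain ⟨g, hg, rfl⟩ := mem_le.1 hy
  rw [← map_mul]
  exact mk_mem_le ((totalDegree_mul _ _).trans (by omega))

theorem one_mem_le {ξ : k} {m : ℕ} : (1 : PotQuot Ω ξ) ∈ le Ω ξ m := by
  rw [← map_one (pmk Ω ξ)]
  exact mk_mem_le (by simp)

theorem totalDegree_pderiv_le (f : MvPolynomial (Fin 3) k) (j : Fin 3) {a : ℕ}
    (hf : f.totalDegree ≤ a) : (pderiv j f).totalDegree ≤ a - 1 := by
  rw [← sum_homogeneousComponent f, map_sum]
  refine (totalDegree_finsetSum _ _).trans (Finset.sup_le fun i hi => ?_)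
  rw [Finset.mem_range] at hi
  exact (homogeneousComponent_isHomogeneous i f).pderiv.totalDegree_le.trans (by omega)

theorem totalDegree_jac_le {f g : MvPolynomial (Fin 3) k} {a b : ℕ} (hΩ : Ω.IsHomogeneous n)
    (hn : 3 ≤ n) (hf : f.totalDegree ≤ a) (hg : g.totalDegree ≤ b) :
    (jac Ω f g).totalDegree ≤ a + b + (n - 3) := by
  by_cases ha : a = 0
  · subst ha
    have : f = C (coeff 0 f) := totalDegree_eq_zero_iff_eq_C.1 (by omega)
    rw [this, jac_C_left]; simp
  by_cases hb : b = 0
  · subst hb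
    have : g = C (coeff 0 g) := totalDegree_eq_zero_iff_eq_C.1 (by omega)
    rw [this, jac_C_right]; simp
  have h1 : ∀ i j l : Fin 3, (pderiv i f * pderiv j g * pderiv l Ω).totalDegree ≤
      a + b + (n - 3) := by
    intro i j l
    refine (totalDegree_mul _ _).trans ?_
    have h2 := totalDegree_mul (pderiv i f) (pderiv j g)
    have h3 := totalDegree_pderiv_le f i hf
    have h4 := totalDegree_pderiv_le g j hg
    have h5 := totalDegree_pderiv_le Ω l hΩ.totalDegree_le
    omega
  rw [jac_eq]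
  refine (totalDegree_sub _ _).trans (max_le ?_ (h1 _ _ _))
  refine (totalDegree_add _ _).trans (max_le ?_ (h1 _ _ _))
  refine (totalDegree_add _ _).trans (max_le ?_ (h1 _ _ _))
  refine (totalDegree_sub _ _).trans (max_le ?_ (h1 _ _ _))
  exact (totalDegree_sub _ _).trans (max_le (h1 _ _ _) (h1 _ _ _))

theorem bracket_mem_le {ξ : k} {a b : ℕ} {x y : PotQuot Ω ξ} (hΩ : Ω.IsHomogeneous n)
    (hn : 3 ≤ n) (hx : x ∈ le Ω ξ a) (hy : y ∈ le Ω ξ b) :
    potBracket Ω ξ x y ∈ le Ω ξ (a + b + (n - 3)) := by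
  obtain ⟨f, hf, rfl⟩ := mem_le.1 hx
  obtain ⟨g, hg, rfl⟩ := mem_le.1 hy
  rw [potBracket_mk]
  exact mk_mem_le (totalDegree_jac_le hΩ hn hf hg)

/-- The symbol map. -/
theorem exists_symbol (hΩ : Ω.IsHomogeneous n) (h0 : Ω ≠ 0) (hn : n ≠ 0) (ξ : k) (m : ℕ) :
    ∃ s : PotQuot Ω ξ →ₗ[k] PotQuot Ω 0,
      ∀ f : MvPolynomial (Fin 3) k, f.totalDegree ≤ m →
        s (pmk Ω ξ f) = pmk Ω 0 (homogeneousComponent m f) := by
  let V := restrictTotalDegree (Fin 3) k m
  let g : V →ₗ[k] PotQuot Ω ξ := (pmk Ω ξ).toLinearMap ∘ₗ V.subtype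
  let h : V →ₗ[k] PotQuot Ω 0 := (pmk Ω 0).toLinearMap ∘ₗ homogeneousComponent m ∘ₗ V.subtype
  have hgh : LinearMap.ker g ≤ LinearMap.ker h := by
    rintro ⟨f, hf⟩ hfg
    rw [LinearMap.mem_ker] at hfg ⊢
    have h1 : f ∈ Ideal.span {Ω - C ξ} := pmk_eq_zero.1 hfg
    exact pmk_eq_zero.2 (top_mem hΩ h0 hn ξ ((mem_restrictTotalDegree _ _ _).1 hf) h1)
  obtain ⟨s, hs⟩ := LinearMap.exists_extend
    (((LinearMap.ker g).liftQ h hgh) ∘ₗ (LinearMap.quotKerEquivRange g).symm.toLinearMap)
  refine ⟨s, fun f hf => ?_⟩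
  have h1 := LinearMap.congr_fun hs (g.rangeRestrict ⟨f, (mem_restrictTotalDegree _ _ _).2 hf⟩)
  have h2 : (LinearMap.quotKerEquivRange g).symm
      (g.rangeRestrict ⟨f, (mem_restrictTotalDegree _ _ _).2 hf⟩) =
      Submodule.Quotient.mk ⟨f, (mem_restrictTotalDegree _ _ _).2 hf⟩ := by
    rw [LinearEquiv.symm_apply_eq]
    rfl
  simp only [LinearMap.comp_apply, LinearEquiv.coe_coe, h2] at h1
  exact h1

end Pool.Agent.N1.Poi
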