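import Mathlib
import Pool.Agent.N1.Poi.Single

set_option autoImplicit false

open MvPolynomial
open scoped TensorProduct

noncomputable section

namespace Pool.Agent.N1.Poi

universe u

/-- A tensor product of reduced algebras over a field is reduced when one factor stays reduced after
each extension of the base field. -/
theorem isReduced_tensor {k R B : Type u} [Field k] [CommRing R] [Algebra k R] [CommRing B]
    [Algebra k B] [IsReduced R]
    (hB : ∀ (K : Type u) [Field K] [Algebra k K], IsReduced (K ⊗[k] B)) :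
    IsReduced (R ⊗[k] B) := by
  constructor
  intro x hx
  let b := Module.Basis.ofVectorSpace k B
  have key : ∀ i, (Algebra.TensorProduct.basis R b).repr x i = 0 := by
    intro i
    have h1 : (Algebra.TensorProduct.basis R b).repr x i ∈ nilradical R := by
      rw [nilradical_eq_sInf, Submodule.mem_sInf]
      intro (p : Ideal R) hp
      have hp' : p.IsPrime := hp
      let φ : R ⊗[k] B →ₐ[k] p.ResidueField ⊗[k] B :=
        Algebra.TensorProduct.map (IsScalarTower.toAlgHom k R p.ResidueField) (AlgHom.id k B)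
      have h2 : φ x = 0 := by
        have := hB p.ResidueField
        exact (hx.map φ).eq_zero
      have h3 : ∀ y : R ⊗[k] B, (Algebra.TensorProduct.basis p.ResidueField b).repr (φ y) i =
          algebraMap R p.ResidueField ((Algebra.TensorProduct.basis R b).repr y i) := by
        intro y
        induction y with
        | zero => simp
        | tmul r c =>
          simp only [φ, Algebra.TensorProduct.map_tmul, Algebra.TensorProduct.basis_repr_tmul]
          simp [Finsupp.smul_apply, Algebra.smul_def, IsScalarTower.algebraMap_apply k R p.ResidueField]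
        | add y z hy hz => simp only [map_add, Finsupp.add_apply, hy, hz]
      have h4 := h3 x
      rw [h2, map_zero, Finsupp.zero_apply] at h4
      exact Ideal.algebraMap_residueField_eq_zero.1 h4.symm
    exact (mem_nilradical.1 h1).eq_zero
  have h5 : (Algebra.TensorProduct.basis R b).repr x = 0 := Finsupp.ext key
  exact (LinearEquiv.map_eq_zero_iff _).1 h5

variable {k : Type u} [Field k] {Ω : MvPolynomial (Fin 3) k} {n : ℕ}

theorem jacIdeal_homogeneous (hΩ : Ω.IsHomogeneous n) :
    letI := gradedAlgebra (R := k) (σ := Fin 3)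
    (Ideal.span (Set.range fun j : Fin 3 => pderiv j Ω)).IsHomogeneous
      (homogeneousSubmodule (Fin 3) k) := by
  let := gradedAlgebra (R := k) (σ := Fin 3)
  refine Ideal.homogeneous_span _ _ ?_
  rintro _ ⟨j, rfl⟩
  exact ⟨n - 1, hΩ.pderiv⟩

/-- A power of each variable lies in the Jacobian ideal. -/
theorem exists_pow_mem (hΩ : Ω.IsHomogeneous n) (hs : IsIsolatedSingularity Ω) (l : Fin 3) :
    ∃ N : ℕ, (X l : MvPolynomial (Fin 3) k) ^ N ∈
      Ideal.span (Set.range fun j : Fin 3 => pderiv j Ω) := by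
  have hfin : Module.Finite k (MvPolynomial (Fin 3) k ⧸
    Ideal.span (Set.range fun j : Fin 3 => pderiv j Ω)) := hs
  obtain ⟨p, hp, hp0⟩ := Algebra.IsIntegral.isIntegral (R := k)
    (Ideal.Quotient.mk (Ideal.span (Set.range fun j : Fin 3 => pderiv j Ω)) (X l))
  refine ⟨p.natDegree, ?_⟩
  have h1 : Polynomial.aeval (X l : MvPolynomial (Fin 3) k) p ∈
      Ideal.span (Set.range fun j : Fin 3 => pderiv j Ω) := by
    rw [← Ideal.Quotient.eq_zero_iff_mem]
    have h2 := Polynomial.aeval_algHom_apply (Ideal.Quotient.mkₐ k (Ideal.span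
      (Set.range fun j : Fin 3 => pderiv j Ω))) (X l) p
    rw [Ideal.Quotient.mkₐ_eq_mk] at h2
    rw [← h2]
    exact hp0
  have h3 := homogeneousComponent_mem_of_mem (jacIdeal_homogeneous hΩ) h1 p.natDegree
  have h4 : homogeneousComponent p.natDegree (Polynomial.aeval (X l : MvPolynomial (Fin 3) k) p) =
      X l ^ p.natDegree := by
    rw [Polynomial.aeval_eq_sum_range, map_sum, Finset.sum_eq_single p.natDegree]
    · rw [Polynomial.coeff_natDegree, hp.leadingCoeff, one_smul, homogeneousComponent_eq_self]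
      simpa using isHomogeneous_X_pow (R := k) l p.natDegree
    · intro i _ hi
      rw [map_smul, homogeneousComponent_of_mem
        (by simpa using isHomogeneous_X_pow (R := k) l i : (X l ^ i : MvPolynomial (Fin 3) k) ∈
          homogeneousSubmodule (Fin 3) k i), if_neg (Ne.symm hi), smul_zero]
    · intro h
      exact absurd (Finset.self_mem_range_succ _) h
  rwa [h4] at h3

/-- Cofactor form, with the exponent a power of two. -/
theorem exists_cofactors (hΩ : Ω.IsHomogeneous n) (hs : IsIsolatedSingularity Ω) :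
    ∃ e : ℕ, n - 1 ≤ 2 ^ e ∧ ∀ l : Fin 3, ∃ c : Fin 3 → MvPolynomial (Fin 3) k,
      (∀ j, (c j).IsHomogeneous (2 ^ e - (n - 1))) ∧
      (X l : MvPolynomial (Fin 3) k) ^ (2 ^ e) = ∑ j, c j * pderiv j Ω := by
  choose N hN using exists_pow_mem hΩ hs
  let M := N 0 + N 1 + N 2 + n
  have hM : M ≤ 2 ^ M := Nat.lt_two_pow_self.le
  have hNM : ∀ l, N l ≤ 2 ^ M := by
    intro l
    refine le_trans ?_ hM
    fin_cases l <;> simp [M] <;> omega
  refine ⟨M, by omega, fun l => ?_⟩
  have h1 : (X l : MvPolynomial (Fin 3) k) ^ (2 ^ M) ∈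
      Ideal.span (Set.range fun j : Fin 3 => pderiv j Ω) :=
    Ideal.pow_mem_of_pow_mem _ (hN l) (hNM l)
  obtain ⟨c, hc⟩ := (Submodule.mem_span_range_iff_exists_fun _).1 h1
  refine ⟨fun j => homogeneousComponent (2 ^ M - (n - 1)) (c j),
    fun j => homogeneousComponent_isHomogeneous _ _, ?_⟩
  have h2 := congrArg (homogeneousComponent (2 ^ M)) hc
  rw [homogeneousComponent_eq_self (p := X l ^ 2 ^ M)
    (by simpa using isHomogeneous_X_pow (R := k) l (2 ^ M)), map_sum] at h2
  rw [← h2]
  refine Finset.sum_congr rfl fun j _ => ?_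
  rw [smul_eq_mul]
  conv_lhs => rw [show 2 ^ M = (2 ^ M - (n - 1)) + (n - 1) by omega]
  rw [hc_mul_right (c j) (hΩ.pderiv (i := j))]

/-- `Ω - ξ` is squarefree over each extension of the base field. -/
theorem squarefree_map (hΩ : Ω.IsHomogeneous n) (hs : IsIsolatedSingularity Ω) (ξ : k)
    (K : Type u) [Field K] [Algebra k K] :
    Squarefree (MvPolynomial.map (algebraMap k K) (Ω - C ξ)) := by
  rintro g ⟨h, hh⟩
  have h1 : ∀ j : Fin 3, MvPolynomial.map (algebraMap k K) (pderiv j Ω) ∈ Ideal.span {g} := by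
    intro j
    have h2 : MvPolynomial.map (algebraMap k K) (pderiv j Ω) =
        pderiv j (MvPolynomial.map (algebraMap k K) (Ω - C ξ)) := by
      rw [pderiv_map, map_sub, pderiv_C, sub_zero]
    rw [h2, hh, Ideal.mem_span_singleton]
    refine ⟨2 * pderiv j g * h + g * pderiv j h, ?_⟩
    simp only [Derivation.leibniz, smul_eq_mul]
    ring
  have h3 : Ideal.span (Set.range fun j : Fin 3 => pderiv j Ω) ≤
      (Ideal.span {g}).comap (MvPolynomial.map (algebraMap k K)) := by
    rw [Ideal.span_le]
    rintro _ ⟨j, rfl⟩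
    exact h1 j
  have h4 : ∀ l : Fin 3, ∃ N : ℕ, g ∣ (X l : MvPolynomial (Fin 3) K) ^ N := by
    intro l
    obtain ⟨N, hN⟩ := exists_pow_mem hΩ hs l
    refine ⟨N, ?_⟩
    have h5 := h3 hN
    rw [Ideal.mem_comap, map_pow, MvPolynomial.map_X, Ideal.mem_span_singleton] at h5
    exact h5
  obtain ⟨N0, hN0⟩ := h4 0
  obtain ⟨N1, hN1⟩ := h4 1
  obtain ⟨i, _, hi⟩ := (dvd_prime_pow X_prime N0).1 hN0
  by_cases hi0 : i = 0
  · subst hi0
    rw [pow_zero] at hi
    exact associated_one_iff_isUnit.1 hi
  · exfalso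
    have h6 : (X 0 : MvPolynomial (Fin 3) K) ∣ X 1 ^ N1 :=
      ((dvd_pow_self _ hi0).trans hi.symm.dvd).trans hN1
    have h7 : (X 0 : MvPolynomial (Fin 3) K) ∣ X 1 := X_prime.dvd_of_dvd_pow h6
    rw [X_dvd_X] at h7
    exact absurd h7 (by decide)

/-- `P_{Ω-ξ}` is geometrically reduced. -/
theorem isReduced_base (hΩ : Ω.IsHomogeneous n) (hs : IsIsolatedSingularity Ω) (ξ : k)
    (K : Type u) [Field K] [Algebra k K] : IsReduced (K ⊗[k] PotQuot Ω ξ) := by
  constructor
  intro x hx
  let q : MvPolynomial (Fin 3) k →ₐ[k] PotQuot Ω ξ := pmk Ω ξ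
  have hq : Function.Surjective q := pmk_surjective Ω ξ
  let Q : K ⊗[k] MvPolynomial (Fin 3) k →ₐ[k] K ⊗[k] PotQuot Ω ξ :=
    Algebra.TensorProduct.map (AlgHom.id k K) q
  have hQ : Function.Surjective Q := TensorProduct.map_surjective Function.surjective_id hq
  have hker : RingHom.ker Q = Ideal.map Algebra.TensorProduct.includeRight (RingHom.ker q) :=
    Algebra.TensorProduct.lTensor_ker q hq
  have hkq : RingHom.ker q = Ideal.span {Ω - C ξ} := Ideal.Quotient.mkₐ_ker k _
  rw [hkq, Ideal.map_span, Set.image_singleton] at hker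
  obtain ⟨y, rfl⟩ := hQ x
  obtain ⟨N, hN⟩ := hx
  have h1 : y ^ N ∈ RingHom.ker Q := by
    rw [RingHom.mem_ker, map_pow]
    exact hN
  let e := algebraTensorAlgEquiv k (σ := Fin 3) K
  have he : e (Algebra.TensorProduct.includeRight (Ω - C ξ)) =
      MvPolynomial.map (algebraMap k K) (Ω - C ξ) := by
    rw [Algebra.TensorProduct.includeRight_apply]
    simp only [e, algebraTensorAlgEquiv_tmul, one_smul]
  rw [hker, Ideal.mem_span_singleton] at h1
  have h2 : MvPolynomial.map (algebraMap k K) (Ω - C ξ) ∣ e y ^ N := by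
    rw [← he, ← map_pow]
    exact map_dvd e h1
  have h3 : MvPolynomial.map (algebraMap k K) (Ω - C ξ) ∣ e y :=
    (squarefree_map hΩ hs ξ K).isRadical N _ h2
  have h4 : y ∈ RingHom.ker Q := by
    rw [hker, Ideal.mem_span_singleton]
    rw [← he] at h3
    have h5 := map_dvd e.symm h3
    rwa [AlgEquiv.symm_apply_apply, AlgEquiv.symm_apply_apply] at h5
  exact h4

end Pool.Agent.N1.Poi
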