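import Mathlib
import Pool.Agent.N1.Poi.Reduced

set_option autoImplicit false

open MvPolynomial
open scoped TensorProduct

noncomputable section

namespace Pool.Agent.N1.Poi

universe u

variable {k : Type u} [Field k] {Ω : MvPolynomial (Fin 3) k} {n : ℕ}
  (R : Type u) [CommRing R] [Algebra k R]

/-- The filtration of `R ⊗ P_{Ω-ξ}` by the degree in the second factor. -/
def FR (Ω : MvPolynomial (Fin 3) k) (ξ : k) (m : ℕ) : Submodule k (R ⊗[k] PotQuot Ω ξ) :=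
  Submodule.span k {t | ∃ (r : R) (p : PotQuot Ω ξ), p ∈ le Ω ξ m ∧ r ⊗ₜ[k] p = t}

variable {R}

theorem tmul_mem_FR {ξ : k} {m : ℕ} (r : R) {p : PotQuot Ω ξ} (hp : p ∈ le Ω ξ m) :
    r ⊗ₜ[k] p ∈ FR R Ω ξ m := Submodule.subset_span ⟨r, p, hp, rfl⟩

theorem FR_induction {ξ : k} {m : ℕ} {W : Type*} [AddCommGroup W] [Module k W]
    (g : R ⊗[k] PotQuot Ω ξ →ₗ[k] W) (V : Submodule k W)
    (h : ∀ (r : R) (p : PotQuot Ω ξ), p ∈ le Ω ξ m → g (r ⊗ₜ p) ∈ V)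
    {u : R ⊗[k] PotQuot Ω ξ} (hu : u ∈ FR R Ω ξ m) : g u ∈ V := by
  have h1 : FR R Ω ξ m ≤ V.comap g := by
    rw [FR, Submodule.span_le]
    rintro _ ⟨r, p, hp, rfl⟩
    exact h r p hp
  exact h1 hu

theorem symbol_low {ξ : k} {m : ℕ} {s : PotQuot Ω ξ →ₗ[k] PotQuot Ω 0}
    (hs : ∀ f : MvPolynomial (Fin 3) k, f.totalDegree ≤ m + 1 →
      s (pmk Ω ξ f) = pmk Ω 0 (homogeneousComponent (m + 1) f))
    {p : PotQuot Ω ξ} (hp : p ∈ le Ω ξ m) : s p = 0 := by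
  obtain ⟨f, hf, rfl⟩ := mem_le.1 hp
  rw [hs f (by omega), homogeneousComponent_eq_zero _ _ (by omega), map_zero]

theorem symbol_mul {ξ : k} {a b : ℕ} {s1 s2 s3 : PotQuot Ω ξ →ₗ[k] PotQuot Ω 0}
    (hs1 : ∀ f : MvPolynomial (Fin 3) k, f.totalDegree ≤ a →
      s1 (pmk Ω ξ f) = pmk Ω 0 (homogeneousComponent a f))
    (hs2 : ∀ f : MvPolynomial (Fin 3) k, f.totalDegree ≤ b →
      s2 (pmk Ω ξ f) = pmk Ω 0 (homogeneousComponent b f))
    (hs3 : ∀ f : MvPolynomial (Fin 3) k, f.totalDegree ≤ a + b →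
      s3 (pmk Ω ξ f) = pmk Ω 0 (homogeneousComponent (a + b) f))
    {p q : PotQuot Ω ξ} (hp : p ∈ le Ω ξ a) (hq : q ∈ le Ω ξ b) : s3 (p * q) = s1 p * s2 q := by
  obtain ⟨f, hf, rfl⟩ := mem_le.1 hp
  obtain ⟨g, hg, rfl⟩ := mem_le.1 hq
  rw [← map_mul, hs3 _ ((totalDegree_mul _ _).trans (by omega)), hs1 f hf, hs2 g hg,
    hc_mul_top hf hg, map_mul]

/-- A map which lowers the filtration and is the identity on elements with trivial symbol. -/
theorem exists_lowering (hΩ : Ω.IsHomogeneous n) (hn : n ≠ 0) {ξ : k} {m : ℕ}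
    {s : PotQuot Ω ξ →ₗ[k] PotQuot Ω 0}
    (hs : ∀ f : MvPolynomial (Fin 3) k, f.totalDegree ≤ m + 1 →
      s (pmk Ω ξ f) = pmk Ω 0 (homogeneousComponent (m + 1) f)) :
    ∃ ρ : PotQuot Ω 0 →ₗ[k] PotQuot Ω ξ, ∀ p ∈ le Ω ξ (m + 1), p - ρ (s p) ∈ le Ω ξ m := by
  let t : le Ω ξ (m + 1) →ₗ[k] PotQuot Ω 0 := s ∘ₗ (le Ω ξ (m + 1)).subtype
  obtain ⟨g, hg⟩ := t.rangeRestrict.exists_rightInverse_of_surjective t.range_rangeRestrict
  obtain ⟨G, hG⟩ := g.exists_extend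
  refine ⟨(le Ω ξ (m + 1)).subtype ∘ₗ G, fun p hp => ?_⟩
  have h1 : G (s p) = g (t.rangeRestrict ⟨p, hp⟩) :=
    LinearMap.congr_fun hG (t.rangeRestrict ⟨p, hp⟩)
  have h2 : t (g (t.rangeRestrict ⟨p, hp⟩)) = t ⟨p, hp⟩ :=
    congrArg Subtype.val (LinearMap.congr_fun hg (t.rangeRestrict ⟨p, hp⟩))
  have h3 : s (p - G (s p)) = 0 := by
    rw [map_sub, h1, sub_eq_zero]
    exact h2.symm
  have h4 : p - (G (s p) : PotQuot Ω ξ) ∈ le Ω ξ (m + 1) := sub_mem hp (G (s p)).2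
  obtain ⟨f, hf, hfp⟩ := mem_le.1 h4
  rw [← hfp, hs f hf, pmk_eq_zero] at h3
  obtain ⟨f', hf', hff'⟩ := exists_lower hΩ hn ξ hf h3
  refine mem_le.2 ⟨f', hf', ?_⟩
  rw [← pmk_eq.2 hff', hfp]
  rfl

theorem FR_sq [IsReduced R] (hΩ : Ω.IsHomogeneous n) (hiso : IsIsolatedSingularity Ω) (h0 : Ω ≠ 0)
    (hn : n ≠ 0) {ξ : k} {m : ℕ} {u : R ⊗[k] PotQuot Ω ξ} (hu : u ∈ FR R Ω ξ (m + 1))
    (huu : u * u ∈ FR R Ω ξ (2 * m + 1)) : u ∈ FR R Ω ξ m := by
  obtain ⟨s, hs⟩ := exists_symbol hΩ h0 hn ξ (m + 1)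
  obtain ⟨s', hs'⟩ := exists_symbol hΩ h0 hn ξ (m + 1 + (m + 1))
  obtain ⟨ρ, hρ⟩ := exists_lowering hΩ hn hs
  have hred : IsReduced (R ⊗[k] PotQuot Ω 0) :=
    isReduced_tensor fun K _ _ => isReduced_base hΩ hiso 0 K
  have h1 : LinearMap.lTensor R s' (u * u) = 0 := by
    have h2 : LinearMap.lTensor R s' (u * u) ∈ (⊥ : Submodule k (R ⊗[k] PotQuot Ω 0)) := by
      refine FR_induction (LinearMap.lTensor R s') ⊥ (fun r p hp => ?_) huu
      rw [Submodule.mem_bot, LinearMap.lTensor_tmul]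
      have h3 : s' p = 0 := by
        refine symbol_low (m := m + 1 + m) hs' (le_mono ?_ hp)
        omega
      rw [h3, TensorProduct.tmul_zero]
    exact h2
  have h2 : LinearMap.lTensor R s' (u * u) = LinearMap.lTensor R s u * LinearMap.lTensor R s u := by
    -- bilinear identity on the filtration
    have h3 : ∀ v ∈ FR R Ω ξ (m + 1), LinearMap.lTensor R s' (u * v) =
        LinearMap.lTensor R s u * LinearMap.lTensor R s v := by
      intro v hv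
      have h4 : (LinearMap.lTensor R s' ∘ₗ LinearMap.mulLeft k u -
          LinearMap.mulLeft k (LinearMap.lTensor R s u) ∘ₗ LinearMap.lTensor R s) v ∈
          (⊥ : Submodule k (R ⊗[k] PotQuot Ω 0)) := by
        refine FR_induction _ ⊥ (fun r p hp => ?_) hv
        have h5 : (LinearMap.lTensor R s' ∘ₗ LinearMap.mulRight k (r ⊗ₜ[k] p) -
          LinearMap.mulRight k (LinearMap.lTensor R s (r ⊗ₜ[k] p)) ∘ₗ LinearMap.lTensor R s) u ∈
          (⊥ : Submodule k (R ⊗[k] PotQuot Ω 0)) := by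
          refine FR_induction _ ⊥ (fun r' p' hp' => ?_) hu
          simp only [Submodule.mem_bot, LinearMap.sub_apply, LinearMap.comp_apply,
            LinearMap.mulRight_apply, Algebra.TensorProduct.tmul_mul_tmul, LinearMap.lTensor_tmul]
          rw [symbol_mul hs hs hs' hp' hp, sub_self]
        simpa using h5
      have h6 := (Submodule.mem_bot k).1 h4
      simp only [LinearMap.sub_apply, LinearMap.comp_apply, LinearMap.mulLeft_apply,
        sub_eq_zero] at h6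
      exact h6
    exact h3 u hu
  rw [h2] at h1
  have h3 : LinearMap.lTensor R s u = 0 := by
    have h4 : IsNilpotent (LinearMap.lTensor R s u) := ⟨2, by rw [pow_two]; exact h1⟩
    exact h4.eq_zero
  have h4 : LinearMap.lTensor R (LinearMap.id - ρ ∘ₗ s) u ∈ FR R Ω ξ m := by
    refine FR_induction _ _ (fun r p hp => ?_) hu
    rw [LinearMap.lTensor_tmul]
    exact tmul_mem_FR r (hρ p hp)
  rw [LinearMap.lTensor_sub, LinearMap.lTensor_id, LinearMap.lTensor_comp, LinearMap.sub_apply,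
    LinearMap.comp_apply, h3, map_zero, sub_zero] at h4
  exact h4

end Pool.Agent.N1.Poi
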