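import Mathlib
import Pool.Agent.N1.Poi.Tensor

set_option autoImplicit false

open MvPolynomial
open scoped TensorProduct

noncomputable section

namespace Pool.Agent.N1.Poi

universe u

/-- A filtration whose associated graded ring is reduced. -/
structure GoodFilt (k : Type u) [Field k] (T : Type u) [CommRing T] [Algebra k T]
    (F : ℕ → Submodule k T) : Prop where
  mono : ∀ {a b}, a ≤ b → F a ≤ F b
  one : (1 : T) ∈ F 0
  mul : ∀ {a b x y}, x ∈ F a → y ∈ F b → x * y ∈ F (a + b)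
  exh : ∀ x, ∃ a, x ∈ F a
  sq : ∀ {m x}, x ∈ F (m + 1) → x * x ∈ F (2 * m + 1) → x ∈ F m

variable {k : Type u} [Field k] {T : Type u} [CommRing T] [Algebra k T] {F : ℕ → Submodule k T}

theorem GoodFilt.pow (hF : GoodFilt k T F) {a : ℕ} {x : T} (hx : x ∈ F a) (N : ℕ) :
    x ^ N ∈ F (N * a) := by
  induction N with
  | zero => simpa using hF.one
  | succ N ih =>
    rw [pow_succ, add_mul, one_mul]
    exact hF.mul ih hx

theorem GoodFilt.prod (hF : GoodFilt k T F) {a : ℕ} {x : Fin 3 → T} (hx : ∀ l, x l ∈ F a)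
    (d : Fin 3 →₀ ℕ) : ∏ l, x l ^ d l ∈ F (d.degree * a) := by
  have h1 : d.degree = d 0 + d 1 + d 2 := by
    rw [Finsupp.degree_eq_sum, Fin.sum_univ_three]
  rw [Fin.prod_univ_three, h1, add_mul, add_mul]
  exact hF.mul (hF.mul (hF.pow (hx 0) _) (hF.pow (hx 1) _)) (hF.pow (hx 2) _)

theorem GoodFilt.aeval (hF : GoodFilt k T F) {a : ℕ} {x : Fin 3 → T} (hx : ∀ l, x l ∈ F a)
    {D : ℕ} {p : MvPolynomial (Fin 3) k} (hp : p.IsHomogeneous D) :
    MvPolynomial.aeval x p ∈ F (D * a) := by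
  rw [MvPolynomial.aeval_def, MvPolynomial.eval₂_eq']
  refine Submodule.sum_mem _ fun d hd => ?_
  rw [← Algebra.smul_def]
  refine Submodule.smul_mem _ _ ?_
  have h1 : d.degree = D := by
    by_contra h
    exact (mem_support_iff.1 hd) (hp.coeff_eq_zero h)
  rw [← h1]
  exact hF.prod hx d

theorem GoodFilt.of_pow (hF : GoodFilt k T F) (e : ℕ) : ∀ {M : ℕ} {x : T}, x ∈ F (M + 1) →
    x ^ 2 ^ e ∈ F (2 ^ e * (M + 1) - 1) → x ∈ F M := by
  induction e with
  | zero => intro M x _ h; simpa using h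
  | succ e ih =>
    intro M x hx h
    refine ih hx ?_
    have h1 := hF.pow hx (2 ^ e)
    have hpos : 0 < 2 ^ e * (M + 1) := by positivity
    obtain ⟨w, hw⟩ : ∃ w, 2 ^ e * (M + 1) = w + 1 := ⟨2 ^ e * (M + 1) - 1, by omega⟩
    rw [hw] at h1 ⊢
    rw [Nat.add_sub_cancel]
    refine hF.sq h1 ?_
    rw [← pow_two, ← pow_mul, ← pow_succ]
    have h2 : 2 ^ (e + 1) * (M + 1) - 1 = 2 * w + 1 := by
      rw [pow_succ, mul_comm (2 ^ e) 2, mul_assoc, hw]
      omega
    rwa [h2] at h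

/-- The key degree bound: a triple satisfying the relations of a potential `Ω` of degree at least
four lies in `F c`, where `c` bounds the degree of the bracket. -/
theorem degree_bound (hF : GoodFilt k T F) {br : T → T → T} {c : ℕ} (hc : 1 ≤ c)
    (hbr : ∀ {a b x y}, x ∈ F a → y ∈ F b → br x y ∈ F (a + b + c))
    {Ω : MvPolynomial (Fin 3) k} {n : ℕ} (hn : 4 ≤ n) (hΩ : Ω.IsHomogeneous n)
    (hiso : IsIsolatedSingularity Ω) (x : Fin 3 → T)
    (h01 : br (x 0) (x 1) = MvPolynomial.aeval x (pderiv 2 Ω))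
    (h12 : br (x 1) (x 2) = MvPolynomial.aeval x (pderiv 0 Ω))
    (h20 : br (x 2) (x 0) = MvPolynomial.aeval x (pderiv 1 Ω)) (l : Fin 3) : x l ∈ F c := by
  obtain ⟨e, he, hcof⟩ := exists_cofactors hΩ hiso
  -- one step down
  have step : ∀ M, c ≤ M → (∀ l, x l ∈ F (M + 1)) → ∀ l, x l ∈ F M := by
    intro M hM hx l
    refine hF.of_pow e (hx l) ?_
    have hd : ∀ j, MvPolynomial.aeval x (pderiv j Ω) ∈ F ((n - 1) * (M + 1) - 1) := by
      have hle : M + 1 + (M + 1) + c ≤ (n - 1) * (M + 1) - 1 := by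
        have h1 : 3 * (M + 1) ≤ (n - 1) * (M + 1) := Nat.mul_le_mul_right _ (by omega)
        omega
      intro j
      fin_cases j
      · exact h12 ▸ hF.mono hle (hbr (hx 1) (hx 2))
      · exact h20 ▸ hF.mono hle (hbr (hx 2) (hx 0))
      · exact h01 ▸ hF.mono hle (hbr (hx 0) (hx 1))
    obtain ⟨q, hq, hX⟩ := hcof l
    have h1 := congrArg (MvPolynomial.aeval x) hX
    rw [map_pow, MvPolynomial.aeval_X, map_sum] at h1
    rw [h1]
    refine Submodule.sum_mem _ fun j _ => ?_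
    rw [map_mul]
    have h2 := hF.mul (hF.aeval hx (hq j)) (hd j)
    refine hF.mono ?_ h2
    have h3 : 1 ≤ (n - 1) * (M + 1) := Nat.one_le_iff_ne_zero.2 (Nat.mul_ne_zero (by omega) (by omega))
    have h4 : (2 ^ e - (n - 1)) * (M + 1) + (n - 1) * (M + 1) = 2 ^ e * (M + 1) := by
      rw [← add_mul, Nat.sub_add_cancel he]
    omega
  obtain ⟨a, ha⟩ : ∃ a, ∀ l, x l ∈ F a := by
    choose a ha using fun l => hF.exh (x l)
    refine ⟨a 0 + a 1 + a 2, fun l => hF.mono ?_ (ha l)⟩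
    fin_cases l <;> simp <;> omega
  have down : ∀ t, ∀ l, x l ∈ F (c + (a - t)) := by
    intro t
    induction t with
    | zero => exact fun l => hF.mono (by omega) (ha l)
    | succ t ih =>
      by_cases h : a - t = 0
      · have h1 : a - (t + 1) = a - t := by omega
        rw [h1]
        exact ih
      · have h1 : c + (a - t) = c + (a - (t + 1)) + 1 := by omega
        rw [h1] at ih
        exact step _ (by omega) ih
  have h1 := down a l
  rwa [Nat.sub_self, add_zero] at h1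

end Pool.Agent.N1.Poi
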