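import Mathlib
import Pool.Agent.N1.Poi.Bound

set_option autoImplicit false

open scoped TensorProduct
open PiTensorProduct

noncomputable section

namespace Pool.Agent.N1.Poi

universe u

variable (k : Type u) [Field k] {ι : Type} [DecidableEq ι] (B : ι → Type u) [∀ i, CommRing (B i)]
  [∀ i, Algebra k (B i)] (i : ι)

/-- The tensor product of the factors other than the `i`-th one. -/
abbrev Rest : Type u := ⨂[k] j : {j // j ≠ i}, B j

/-- The multilinear map behind `split`. -/
def splitMul : MultilinearMap k B (Rest k B i ⊗[k] B i) where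
  toFun p := (tprod k fun j : {j // j ≠ i} => p j) ⊗ₜ[k] (p i)
  map_update_add' {inst} p j x y := by
    by_cases h : j = i
    · subst h
      have h1 : ∀ z : B j, (fun j' : {j' // j' ≠ j} => Function.update p j z j') =
          fun j' : {j' // j' ≠ j} => p j' := fun z => by
        funext j'
        exact Function.update_of_ne j'.2 _ _
      simp only [h1, Function.update_self, TensorProduct.tmul_add]
    · have h1 : ∀ z : B j, (fun j' : {j' // j' ≠ i} => Function.update p j z j') =
          Function.update (fun j' : {j' // j' ≠ i} => p j') ⟨j, h⟩ z := fun z => by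
        funext j'
        by_cases h2 : j' = ⟨j, h⟩
        · subst h2; simp
        · rw [Function.update_of_ne h2, Function.update_of_ne]
          exact fun h3 => h2 (Subtype.ext h3)
      have h2 : ∀ z : B j, Function.update p j z i = p i := fun z =>
        Function.update_of_ne (Ne.symm h) _ _
      simp only [h1, h2, MultilinearMap.map_update_add, TensorProduct.add_tmul]
  map_update_smul' {inst} p j c x := by
    by_cases h : j = i
    · subst h
      have h1 : ∀ z : B j, (fun j' : {j' // j' ≠ j} => Function.update p j z j') =
          fun j' : {j' // j' ≠ j} => p j' := fun z => by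
        funext j'
        exact Function.update_of_ne j'.2 _ _
      simp only [h1, Function.update_self, TensorProduct.tmul_smul]
    · have h1 : ∀ z : B j, (fun j' : {j' // j' ≠ i} => Function.update p j z j') =
          Function.update (fun j' : {j' // j' ≠ i} => p j') ⟨j, h⟩ z := fun z => by
        funext j'
        by_cases h2 : j' = ⟨j, h⟩
        · subst h2; simp
        · rw [Function.update_of_ne h2, Function.update_of_ne]
          exact fun h3 => h2 (Subtype.ext h3)
      have h2 : ∀ z : B j, Function.update p j z i = p i := fun z =>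
        Function.update_of_ne (Ne.symm h) _ _
      simp only [h1, h2, MultilinearMap.map_update_smul, TensorProduct.smul_tmul']

omit [DecidableEq ι] in
theorem splitMul_one : splitMul k B i 1 = 1 := rfl

omit [DecidableEq ι] in
theorem splitMul_mul (x y : ∀ j, B j) :
    splitMul k B i (x * y) = splitMul k B i x * splitMul k B i y := by
  change (tprod k fun j : {j // j ≠ i} => (x * y) j) ⊗ₜ[k] ((x * y) i) =
    ((tprod k fun j : {j // j ≠ i} => x j) ⊗ₜ[k] (x i)) *
    ((tprod k fun j : {j // j ≠ i} => y j) ⊗ₜ[k] (y i))
  rw [Algebra.TensorProduct.tmul_mul_tmul, tprod_mul_tprod]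
  rfl

/-- The algebra map `⨂ B → (⨂_{j ≠ i} B j) ⊗ B i`. -/
def split : (⨂[k] j, B j) →ₐ[k] Rest k B i ⊗[k] B i :=
  liftAlgHom (splitMul k B i) (splitMul_one k B i) (splitMul_mul k B i)

theorem split_tprod (p : ∀ j, B j) : split k B i (tprod k p) =
    (tprod k fun j : {j // j ≠ i} => p j) ⊗ₜ[k] (p i) := by
  rw [split, liftAlgHom_apply, lift.tprod]
  rfl

variable [Fintype ι]

theorem tprod_eq_prod (p : ∀ j, B j) : tprod k p = ∏ j, singleAlgHom (R := k) j (p j) := by
  simp only [singleAlgHom_apply]
  rw [← tprod_prod]
  congr 1
  funext j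
  rw [Finset.prod_apply, Finset.prod_eq_single j]
  · simp
  · intro j' _ h
    simp [Pi.mulSingle_eq_of_ne h.symm]
  · intro h
    exact absurd (Finset.mem_univ _) h

/-- The multilinear map behind `restIncl`. -/
def restMul : MultilinearMap k (fun j : {j // j ≠ i} => B j) (⨂[k] j, B j) :=
  (MultilinearMap.mkPiAlgebra k {j // j ≠ i} (⨂[k] j, B j)).compLinearMap
    fun j : {j // j ≠ i} => (singleAlgHom (R := k) (A := B) j.1).toLinearMap

theorem restMul_apply (p : ∀ j : {j // j ≠ i}, B j) : restMul k B i p =
    ∏ j : {j // j ≠ i}, singleAlgHom (R := k) j.1 (p j) := by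
  rw [restMul, MultilinearMap.compLinearMap_apply, MultilinearMap.mkPiAlgebra_apply]
  rfl

theorem restMul_one : restMul k B i 1 = 1 := by
  rw [restMul_apply]
  exact Finset.prod_eq_one fun j _ => map_one _

theorem restMul_mul (x y : ∀ j : {j // j ≠ i}, B j) :
    restMul k B i (x * y) = restMul k B i x * restMul k B i y := by
  rw [restMul_apply, restMul_apply, restMul_apply, ← Finset.prod_mul_distrib]
  exact Finset.prod_congr rfl fun j _ => map_mul _ _ _

/-- The inclusion of the rest. -/
def restIncl : Rest k B i →ₐ[k] ⨂[k] j, B j :=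
  liftAlgHom (restMul k B i) (restMul_one k B i) (restMul_mul k B i)

theorem restIncl_tprod (p : ∀ j : {j // j ≠ i}, B j) : restIncl k B i (tprod k p) =
    ∏ j : {j // j ≠ i}, singleAlgHom (R := k) j.1 (p j) := by
  rw [restIncl, liftAlgHom_apply, lift.tprod, restMul_apply]

/-- The inverse of `split`. -/
def merge : Rest k B i ⊗[k] B i →ₐ[k] ⨂[k] j, B j :=
  Algebra.TensorProduct.lift (restIncl k B i) (singleAlgHom i) fun _ _ => Commute.all _ _

theorem merge_tprod (p : ∀ j, B j) :
    merge k B i ((tprod k fun j : {j // j ≠ i} => p j) ⊗ₜ[k] (p i)) = tprod k p := by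
  rw [merge, Algebra.TensorProduct.lift_tmul, restIncl_tprod, tprod_eq_prod,
    ← Finset.prod_compl_mul_prod {i}, Finset.prod_singleton]
  congr 1
  symm
  refine Finset.prod_subtype _ (fun j => ?_) _
  simp

theorem merge_split (t : ⨂[k] j, B j) : merge k B i (split k B i t) = t := by
  induction t using PiTensorProduct.induction_on with
  | smul_tprod r p => rw [map_smul, map_smul, split_tprod, merge_tprod]
  | add x y hx hy => rw [map_add, map_add, hx, hy]

omit [Fintype ι] in
/-- Extending a family on the rest. -/
theorem exists_extend (p : ∀ j : {j // j ≠ i}, B j) (b : B i) :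
    ∃ q : ∀ j, B j, (fun j : {j // j ≠ i} => q j) = p ∧ q i = b := by
  refine ⟨Function.update (fun j => if h : j ≠ i then p ⟨j, h⟩ else 1) i b, ?_, by simp⟩
  funext j
  rw [Function.update_of_ne j.2, dif_pos j.2]

theorem split_merge (t : Rest k B i ⊗[k] B i) : split k B i (merge k B i t) = t := by
  induction t with
  | zero => simp
  | tmul r b =>
    induction r using PiTensorProduct.induction_on with
    | smul_tprod c p =>
      obtain ⟨q, rfl, rfl⟩ := exists_extend B i p b
      rw [← TensorProduct.smul_tmul', map_smul, map_smul, merge_tprod, split_tprod]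
    | add x y hx hy => rw [TensorProduct.add_tmul, map_add, map_add, hx, hy]
  | add x y hx hy => rw [map_add, map_add, hx, hy]

theorem split_injective : Function.Injective (split k B i) := fun x y h => by
  rw [← merge_split k B i x, h, merge_split]

/-- A tensor product of algebras which stay reduced after each extension of the base field is
reduced. -/
theorem isReduced_pi : ∀ (N : ℕ) (ι : Type) [Fintype ι] [DecidableEq ι] (B : ι → Type u)
    [∀ i, CommRing (B i)] [∀ i, Algebra k (B i)],
    (∀ (i : ι) (K : Type u) [Field K] [Algebra k K], IsReduced (K ⊗[k] B i)) →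
    Fintype.card ι = N → IsReduced (⨂[k] i, B i) := by
  intro N
  induction N with
  | zero =>
    intro ι _ _ B _ _ _ hcard
    have hι : IsEmpty ι := Fintype.card_eq_zero_iff.1 hcard
    constructor
    intro x hx
    have h1 : ∀ y : ⨂[k] i, B i, ∃ c : k, y = algebraMap k _ c := by
      intro y
      induction y using PiTensorProduct.induction_on with
      | smul_tprod r p =>
        refine ⟨r, ?_⟩
        rw [Algebra.algebraMap_eq_smul_one]
        congr 1
        rw [one_def]
        congr 1
        funext j
        exact hι.elim j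
      | add x y hx hy =>
        obtain ⟨c, rfl⟩ := hx
        obtain ⟨d, rfl⟩ := hy
        exact ⟨c + d, by rw [map_add]⟩
    obtain ⟨c, rfl⟩ := h1 x
    by_cases hc : c = 0
    · rw [hc, map_zero]
    · have h2 : IsUnit (algebraMap k (⨂[k] i, B i) c) := (IsUnit.mk0 c hc).map _
      obtain ⟨M, hM⟩ := hx
      have h3 : (0 : ⨂[k] i, B i) = 1 := by
        have h4 := h2.pow M
        rw [hM] at h4
        exact isUnit_zero_iff.1 h4
      have h5 : Subsingleton (⨂[k] i, B i) := subsingleton_iff_zero_eq_one.1 h3
      exact Subsingleton.elim _ _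
  | succ N ih =>
    intro ι _ _ B _ _ hB hcard
    obtain ⟨i⟩ : Nonempty ι := Fintype.card_pos_iff.1 (by omega)
    have h1 : IsReduced (Rest k B i) := by
      refine ih {j // j ≠ i} (fun j => B j) (fun j K _ _ => hB j K) ?_
      rw [Fintype.card_subtype_compl, Fintype.card_subtype_eq, hcard, Nat.add_sub_cancel]
    have h2 : IsReduced (Rest k B i ⊗[k] B i) := isReduced_tensor fun K _ _ => hB i K
    exact isReduced_of_injective (split k B i) (split_injective k B i)

end Pool.Agent.N1.Poi
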