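import Mathlib
import Pool.Agent.N1.Poi.Split

set_option autoImplicit false
set_option linter.unusedSectionVars false

open scoped TensorProduct
open PiTensorProduct

noncomputable section

namespace Pool.Agent.N1.Poi

universe u

variable {k : Type u} [Field k] {ι : Type} [DecidableEq ι] [Fintype ι]
  (Ω : ι → MvPolynomial (Fin 3) k) (ξ : ι → k)

/-- The tensor product of the `P_{Ωᵢ-ξᵢ}`. -/
abbrev Tens : Type u := ⨂[k] i, PotQuot (Ω i) (ξ i)

/-- The bracket of the tensor product. -/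
abbrev tensBr : Tens Ω ξ →ₗ[k] Tens Ω ξ →ₗ[k] Tens Ω ξ :=
  tensorBracket (fun i => PotQuot (Ω i) (ξ i)) fun i => potBracket (Ω i) (ξ i)

/-- Filtration by the degree in the `i`-th factor. -/
def Fil (i : ι) (m : ℕ) : Submodule k (Tens Ω ξ) :=
  Submodule.span k {t | ∃ p : ∀ j, PotQuot (Ω j) (ξ j), p i ∈ le (Ω i) (ξ i) m ∧ tprod k p = t}

variable {Ω ξ}

theorem tprod_mem {i : ι} {m : ℕ} {p : ∀ j, PotQuot (Ω j) (ξ j)} (hp : p i ∈ le (Ω i) (ξ i) m) :
    tprod k p ∈ Fil Ω ξ i m := Submodule.subset_span ⟨p, hp, rfl⟩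

theorem Fil_induction {i : ι} {m : ℕ} {W : Type*} [AddCommGroup W] [Module k W]
    (g : Tens Ω ξ →ₗ[k] W) (V : Submodule k W)
    (h : ∀ p : ∀ j, PotQuot (Ω j) (ξ j), p i ∈ le (Ω i) (ξ i) m → g (tprod k p) ∈ V)
    {u : Tens Ω ξ} (hu : u ∈ Fil Ω ξ i m) : g u ∈ V := by
  have h1 : Fil Ω ξ i m ≤ V.comap g := by
    rw [Fil, Submodule.span_le]
    rintro _ ⟨p, hp, rfl⟩
    exact h p hp
  exact h1 hu

theorem Fil_mono {i : ι} {a b : ℕ} (h : a ≤ b) : Fil Ω ξ i a ≤ Fil Ω ξ i b := by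
  rw [Fil, Submodule.span_le]
  rintro _ ⟨p, hp, rfl⟩
  exact tprod_mem (le_mono h hp)

theorem Fil_exh {i : ι} (x : Tens Ω ξ) : ∃ a, x ∈ Fil Ω ξ i a := by
  induction x using PiTensorProduct.induction_on with
  | smul_tprod r p =>
    obtain ⟨a, ha⟩ := exists_mem_le (p i)
    exact ⟨a, Submodule.smul_mem _ _ (tprod_mem ha)⟩
  | add x y hx hy =>
    obtain ⟨a, ha⟩ := hx
    obtain ⟨b, hb⟩ := hy
    exact ⟨a + b, add_mem (Fil_mono (by omega) ha) (Fil_mono (by omega) hb)⟩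

theorem Fil_one {i : ι} : (1 : Tens Ω ξ) ∈ Fil Ω ξ i 0 := by
  rw [one_def]
  exact tprod_mem one_mem_le

theorem Fil_bil {i : ι} {a b c : ℕ} (g : Tens Ω ξ →ₗ[k] Tens Ω ξ →ₗ[k] Tens Ω ξ)
    (h : ∀ p q : ∀ j, PotQuot (Ω j) (ξ j), p i ∈ le (Ω i) (ξ i) a → q i ∈ le (Ω i) (ξ i) b →
      g (tprod k p) (tprod k q) ∈ Fil Ω ξ i c)
    {x y : Tens Ω ξ} (hx : x ∈ Fil Ω ξ i a) (hy : y ∈ Fil Ω ξ i b) : g x y ∈ Fil Ω ξ i c := by
  refine Fil_induction (g x) _ (fun q hq => ?_) hy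
  exact Fil_induction (g.flip (tprod k q)) _ (fun p hp => h p q hp hq) hx

theorem Fil_mul {i : ι} {a b : ℕ} {x y : Tens Ω ξ} (hx : x ∈ Fil Ω ξ i a)
    (hy : y ∈ Fil Ω ξ i b) : x * y ∈ Fil Ω ξ i (a + b) := by
  refine Fil_bil (LinearMap.mul k (Tens Ω ξ)) (fun p q hp hq => ?_) hx hy
  rw [LinearMap.mul_apply', tprod_mul_tprod]
  exact tprod_mem (mul_mem_le hp hq)

theorem Fil_br {n : ι → ℕ} (hn : ∀ i, 4 ≤ n i) (hΩ : ∀ i, (Ω i).IsHomogeneous (n i)) {i : ι}
    {a b : ℕ} {x y : Tens Ω ξ} (hx : x ∈ Fil Ω ξ i a) (hy : y ∈ Fil Ω ξ i b) :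
    tensBr Ω ξ x y ∈ Fil Ω ξ i (a + b + (n i - 3)) := by
  refine Fil_bil (tensBr Ω ξ) (fun p q hp hq => ?_) hx hy
  rw [tensorBracket_tprod]
  refine Submodule.sum_mem _ fun j _ => tprod_mem ?_
  by_cases h : j = i
  · subst h
    rw [Function.update_self]
    exact bracket_mem_le (hΩ j) (by have := hn j; omega) hp hq
  · rw [Function.update_of_ne (Ne.symm h)]
    exact le_mono (by omega) (mul_mem_le hp hq)

theorem split_mem {i : ι} {m : ℕ} {x : Tens Ω ξ} (hx : x ∈ Fil Ω ξ i m) :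
    split k (fun j => PotQuot (Ω j) (ξ j)) i x ∈
      FR (Rest k (fun j => PotQuot (Ω j) (ξ j)) i) (Ω i) (ξ i) m := by
  refine Fil_induction (split k (fun j => PotQuot (Ω j) (ξ j)) i).toLinearMap _ (fun p hp => ?_) hx
  rw [AlgHom.toLinearMap_apply, split_tprod]
  exact tmul_mem_FR _ hp

theorem merge_mem {i : ι} {m : ℕ} {x : Rest k (fun j => PotQuot (Ω j) (ξ j)) i ⊗[k]
      PotQuot (Ω i) (ξ i)}
    (hx : x ∈ FR (Rest k (fun j => PotQuot (Ω j) (ξ j)) i) (Ω i) (ξ i) m) :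
    merge k (fun j => PotQuot (Ω j) (ξ j)) i x ∈ Fil Ω ξ i m := by
  refine FR_induction (merge k (fun j => PotQuot (Ω j) (ξ j)) i).toLinearMap _
    (fun r p hp => ?_) hx
  rw [AlgHom.toLinearMap_apply]
  induction r using PiTensorProduct.induction_on with
  | smul_tprod c p' =>
    obtain ⟨q, rfl, rfl⟩ := exists_extend (fun j => PotQuot (Ω j) (ξ j)) i p' p
    rw [← TensorProduct.smul_tmul', map_smul, merge_tprod]
    exact Submodule.smul_mem _ _ (tprod_mem hp)
  | add x y hx hy =>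
    rw [TensorProduct.add_tmul, map_add]
    exact add_mem hx hy

theorem ne_zero_of_isolated {Ω : MvPolynomial (Fin 3) k} (h : IsIsolatedSingularity Ω) :
    Ω ≠ 0 := by
  rintro rfl
  obtain ⟨N, hN⟩ := exists_pow_mem (n := 0) (MvPolynomial.isHomogeneous_zero _ _ _) h 0
  have h1 : Ideal.span (Set.range fun j : Fin 3 => MvPolynomial.pderiv j
      (0 : MvPolynomial (Fin 3) k)) = ⊥ := by
    rw [Ideal.span_eq_bot]
    rintro _ ⟨j, rfl⟩
    exact map_zero _
  rw [h1, Ideal.mem_bot] at hN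
  exact pow_ne_zero N (MvPolynomial.X_ne_zero _) hN

theorem goodFilt {n : ι → ℕ} (hn : ∀ i, 4 ≤ n i) (hΩ : ∀ i, (Ω i).IsHomogeneous (n i))
    (hiso : ∀ i, IsIsolatedSingularity (Ω i)) (i : ι) : GoodFilt k (Tens Ω ξ) (Fil Ω ξ i) where
  mono := Fil_mono
  one := Fil_one
  mul := Fil_mul
  exh := Fil_exh
  sq {m x} hx hxx := by
    have hred : IsReduced (Rest k (fun j => PotQuot (Ω j) (ξ j)) i) :=
      isReduced_pi k _ {j // j ≠ i} (fun j => PotQuot (Ω j) (ξ j))
        (fun j K _ _ => isReduced_base (hΩ j) (hiso j) (ξ j) K) rfl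
    have h1 := split_mem hx
    have h2 := split_mem hxx
    rw [map_mul] at h2
    have hni := hn i
    have h3 := FR_sq (hΩ i) (hiso i) (ne_zero_of_isolated (hiso i)) (by omega) h1 h2
    have h4 := merge_mem h3
    rwa [merge_split] at h4

/-! ### Finiteness -/

theorem exists_projection (i : ι) (N : ℕ) : ∃ g : PotQuot (Ω i) (ξ i) →ₗ[k] le (Ω i) (ξ i) N,
    ∀ p ∈ le (Ω i) (ξ i) N, (g p : PotQuot (Ω i) (ξ i)) = p := by
  obtain ⟨g, hg⟩ := (le (Ω i) (ξ i) N).subtype.exists_leftInverse_of_injective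
    (Submodule.ker_subtype _)
  exact ⟨g, fun p hp => congrArg Subtype.val (LinearMap.congr_fun hg ⟨p, hp⟩)⟩

theorem finite_inf (N : ℕ) :
    Module.Finite k (⨅ i, Fil Ω ξ i N : Submodule k (Tens Ω ξ)) := by
  choose g hg using fun i => exists_projection (Ω := Ω) (ξ := ξ) i N
  let π : ∀ i, PotQuot (Ω i) (ξ i) →ₗ[k] PotQuot (Ω i) (ξ i) :=
    fun i => (le (Ω i) (ξ i) N).subtype ∘ₗ g i
  let U : ι → ∀ j, PotQuot (Ω j) (ξ j) →ₗ[k] PotQuot (Ω j) (ξ j) :=
    fun i => Function.update (fun _ => LinearMap.id) i (π i)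
  have h1 : ∀ i, ∀ x ∈ Fil Ω ξ i N, map (U i) x = x := by
    intro i x hx
    have h2 : (map (U i) - LinearMap.id : Tens Ω ξ →ₗ[k] Tens Ω ξ) x ∈
        (⊥ : Submodule k (Tens Ω ξ)) := by
      refine Fil_induction _ ⊥ (fun p hp => ?_) hx
      rw [Submodule.mem_bot, LinearMap.sub_apply, map_tprod, LinearMap.id_apply, sub_eq_zero]
      congr 1
      funext j
      by_cases h : j = i
      · subst h
        simp only [U, Function.update_self]
        exact hg j _ hp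
      · simp only [U, Function.update_of_ne h, LinearMap.id_apply]
    rwa [Submodule.mem_bot, LinearMap.sub_apply, LinearMap.id_apply, sub_eq_zero] at h2
  let V : Finset ι → ∀ j, PotQuot (Ω j) (ξ j) →ₗ[k] PotQuot (Ω j) (ξ j) :=
    fun s j => if j ∈ s then π j else LinearMap.id
  have h3 : ∀ s : Finset ι, ∀ x ∈ (⨅ i, Fil Ω ξ i N : Submodule k (Tens Ω ξ)),
      map (V s) x = x := by
    intro s
    induction s using Finset.induction_on with
    | empty =>
      intro x _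
      have h4 : V ∅ = fun _ => LinearMap.id := by
        funext j
        simp only [V, Finset.notMem_empty, if_false]
      rw [h4, map_id, LinearMap.id_apply]
    | insert i s hi ih =>
      intro x hx
      have h4 : V (insert i s) = fun j => V s j ∘ₗ U i j := by
        funext j
        by_cases h : j = i
        · subst h
          simp only [V, U, Function.update_self, if_pos (Finset.mem_insert_self j s), if_neg hi,
            LinearMap.id_comp]
        · simp only [V, U, Function.update_of_ne h, LinearMap.comp_id, Finset.mem_insert, h,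
            false_or]
      rw [h4, map_comp, LinearMap.comp_apply, h1 i x ((Submodule.mem_iInf _).1 hx i)]
      exact ih x hx
  have h5 : (⨅ i, Fil Ω ξ i N : Submodule k (Tens Ω ξ)) ≤
      LinearMap.range (mapIncl fun i => le (Ω i) (ξ i) N) := by
    intro x hx
    refine ⟨map g x, ?_⟩
    have h6 := h3 Finset.univ x hx
    have h7 : V Finset.univ = fun j => (le (Ω j) (ξ j) N).subtype ∘ₗ g j := by
      funext j
      simp only [V, π, Finset.mem_univ, if_true]
    rw [h7] at h6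
    rw [mapIncl, ← LinearMap.comp_apply, ← map_comp]
    exact h6
  exact Submodule.finiteDimensional_of_le h5

/-! ### The theorem -/

theorem jac_X01 (Ω : MvPolynomial (Fin 3) k) :
    jac Ω (MvPolynomial.X 0) (MvPolynomial.X 1) = MvPolynomial.pderiv 2 Ω := by
  rw [jac_eq]
  simp [MvPolynomial.pderiv_X]

theorem jac_X12 (Ω : MvPolynomial (Fin 3) k) :
    jac Ω (MvPolynomial.X 1) (MvPolynomial.X 2) = MvPolynomial.pderiv 0 Ω := by
  rw [jac_eq]
  simp [MvPolynomial.pderiv_X]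

theorem jac_X20 (Ω : MvPolynomial (Fin 3) k) :
    jac Ω (MvPolynomial.X 2) (MvPolynomial.X 0) = MvPolynomial.pderiv 1 Ω := by
  rw [jac_eq]
  simp [MvPolynomial.pderiv_X]

theorem tensorBracket_single (B : ι → Type u) [∀ i, CommRing (B i)] [∀ i, Algebra k (B i)]
    (br : ∀ i, B i →ₗ[k] B i →ₗ[k] B i) (h0 : ∀ i, br i 1 1 = 0) (j : ι) (a b : B j) :
    tensorBracket B br (tprod k (Pi.mulSingle j a)) (tprod k (Pi.mulSingle j b)) =
      tprod k (Pi.mulSingle j (br j a b)) := by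
  rw [tensorBracket_tprod, Finset.sum_eq_single j]
  · congr 1
    funext i
    by_cases h : i = j
    · subst h
      rw [Function.update_self, Pi.mulSingle_eq_same, Pi.mulSingle_eq_same, Pi.mulSingle_eq_same]
    · rw [Function.update_of_ne h, Pi.mulSingle_eq_of_ne h, Pi.mulSingle_eq_of_ne h,
        Pi.mulSingle_eq_of_ne h, mul_one]
  · intro i _ hij
    refine MultilinearMap.map_coord_zero _ i ?_
    rw [Function.update_self, Pi.mulSingle_eq_of_ne hij, Pi.mulSingle_eq_of_ne hij, h0]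
  · intro h
    exact absurd (Finset.mem_univ _) h

theorem potBracket_one (Ω : MvPolynomial (Fin 3) k) (ξ : k) : potBracket Ω ξ 1 1 = 0 := by
  rw [← map_one (pmk Ω ξ), potBracket_mk, ← MvPolynomial.C_1, jac_C_left, map_zero]

theorem tensBr_single (j : ι) (a b : PotQuot (Ω j) (ξ j)) :
    tensBr Ω ξ (singleAlgHom (R := k) (A := fun i => PotQuot (Ω i) (ξ i)) j a)
      (singleAlgHom (R := k) (A := fun i => PotQuot (Ω i) (ξ i)) j b) =
      singleAlgHom (R := k) (A := fun i => PotQuot (Ω i) (ξ i)) j (potBracket (Ω j) (ξ j) a b) :=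
  tensorBracket_single (fun i => PotQuot (Ω i) (ξ i)) (fun i => potBracket (Ω i) (ξ i))
    (fun i => potBracket_one (Ω i) (ξ i)) j a b

/-- The generators of the tensor product. -/
def gen (Ω : ι → MvPolynomial (Fin 3) k) (ξ : ι → k) (j : ι) (l : Fin 3) : Tens Ω ξ :=
  singleAlgHom (R := k) (A := fun i => PotQuot (Ω i) (ξ i)) j (pmk (Ω j) (ξ j) (MvPolynomial.X l))

theorem aeval_gen (j : ι) (ψ : Tens Ω ξ →ₐ[k] Tens Ω ξ) (p : MvPolynomial (Fin 3) k) :
    MvPolynomial.aeval (fun l => ψ (gen Ω ξ j l)) p =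
      ψ (singleAlgHom (R := k) (A := fun i => PotQuot (Ω i) (ξ i)) j (pmk (Ω j) (ξ j) p)) := by
  have h1 : MvPolynomial.aeval (fun l => ψ (gen Ω ξ j l)) =
      ψ.comp ((singleAlgHom (R := k) (A := fun i => PotQuot (Ω i) (ξ i)) j).comp
        (pmk (Ω j) (ξ j))) := by
    refine MvPolynomial.algHom_ext fun l => ?_
    rw [MvPolynomial.aeval_X]
    rfl
  rw [h1]
  rfl

theorem gen_mem {n : ι → ℕ} (hn : ∀ i, 4 ≤ n i) (hΩ : ∀ i, (Ω i).IsHomogeneous (n i))
    (hiso : ∀ i, IsIsolatedSingularity (Ω i)) (ψ : Tens Ω ξ →ₐ[k] Tens Ω ξ)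
    (hψ : ∀ a b, ψ (tensBr Ω ξ a b) = tensBr Ω ξ (ψ a) (ψ b)) (i j : ι) (l : Fin 3) :
    ψ (gen Ω ξ j l) ∈ Fil Ω ξ i (n i - 3) := by
  have hni := hn i
  refine degree_bound (goodFilt hn hΩ hiso i) (br := fun x y => tensBr Ω ξ x y) (c := n i - 3)
    (by omega) (fun hx hy => Fil_br hn hΩ hx hy) (hn j) (hΩ j) (hiso j)
    (fun l => ψ (gen Ω ξ j l)) ?_ ?_ ?_ l
  · rw [aeval_gen]
    rw [← hψ, gen, gen, tensBr_single, potBracket_mk, jac_X01]
  · rw [aeval_gen]
    rw [← hψ, gen, gen, tensBr_single, potBracket_mk, jac_X12]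
  · rw [aeval_gen]
    rw [← hψ, gen, gen, tensBr_single, potBracket_mk, jac_X20]

theorem range_eq_top (φ : Tens Ω ξ →ₐ[k] Tens Ω ξ) (h : ∀ j l, gen Ω ξ j l ∈ φ.range) :
    φ.range = ⊤ := by
  have h1 : ∀ j (a : PotQuot (Ω j) (ξ j)),
      singleAlgHom (R := k) (A := fun i => PotQuot (Ω i) (ξ i)) j a ∈ φ.range := by
    intro j a
    obtain ⟨p, rfl⟩ := pmk_surjective (Ω j) (ξ j) a
    have h2 := aeval_gen (Ω := Ω) (ξ := ξ) j (AlgHom.id k _) p
    rw [AlgHom.id_apply] at h2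
    rw [← h2]
    have h3 : MvPolynomial.aeval (fun l => (AlgHom.id k (Tens Ω ξ)) (gen Ω ξ j l)) p ∈
        Algebra.adjoin k (Set.range fun l => (AlgHom.id k (Tens Ω ξ)) (gen Ω ξ j l)) := by
      rw [Algebra.adjoin_range_eq_range_aeval]
      exact ⟨p, rfl⟩
    refine (Algebra.adjoin_le ?_) h3
    rintro _ ⟨l, rfl⟩
    exact h j l
  rw [eq_top_iff]
  intro x _
  induction x using PiTensorProduct.induction_on with
  | smul_tprod r p =>
    refine Subalgebra.smul_mem _ ?_ _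
    rw [tprod_eq_prod k (fun i => PotQuot (Ω i) (ξ i)) p]
    exact Subalgebra.prod_mem _ fun j _ => h1 j _
  | add x y hx hy => exact add_mem (hx trivial) (hy trivial)

theorem dixmier {n : ι → ℕ} (hn : ∀ i, 4 ≤ n i) (hΩ : ∀ i, (Ω i).IsHomogeneous (n i))
    (hiso : ∀ i, IsIsolatedSingularity (Ω i)) : IsDixmier (tensBr Ω ξ) := by
  intro φ hφ hinj
  refine ⟨hinj, ?_⟩
  let N := ∑ i, n i
  have hpow : ∀ (t : ℕ) (a b : Tens Ω ξ), (φ ^ t) (tensBr Ω ξ a b) =
      tensBr Ω ξ ((φ ^ t) a) ((φ ^ t) b) := by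
    intro t
    induction t with
    | zero => intro a b; rfl
    | succ t ih =>
      intro a b
      rw [pow_succ', AlgHom.mul_apply, ih, hφ]
      rfl
  let W : Submodule k (Tens Ω ξ) :=
    Submodule.span k {x | ∃ (t : ℕ) (j : ι) (l : Fin 3), (φ ^ t) (gen Ω ξ j l) = x}
  have hWle : W ≤ (⨅ i, Fil Ω ξ i N : Submodule k (Tens Ω ξ)) := by
    rw [Submodule.span_le]
    rintro _ ⟨t, j, l, rfl⟩
    refine (Submodule.mem_iInf _).2 fun i => Fil_mono ?_ (gen_mem hn hΩ hiso _ (hpow t) i j l)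
    exact (Nat.sub_le _ _).trans (Finset.single_le_sum (fun _ _ => Nat.zero_le _)
      (Finset.mem_univ i))
  have hfin := finite_inf (Ω := Ω) (ξ := ξ) N
  have hWfin : Module.Finite k W := Submodule.finiteDimensional_of_le hWle
  have hφW : ∀ x ∈ W, φ.toLinearMap x ∈ W := by
    intro x hx
    have h1 : W ≤ W.comap φ.toLinearMap := by
      rw [Submodule.span_le]
      rintro _ ⟨t, j, l, rfl⟩
      refine Submodule.subset_span ⟨t + 1, j, l, ?_⟩
      rw [pow_succ', AlgHom.mul_apply]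
      rfl
    exact h1 hx
  have hsurj : Function.Surjective (φ.toLinearMap.restrict hφW) := by
    refine LinearMap.injective_iff_surjective.1 fun x y hxy => ?_
    exact Subtype.ext (hinj (congrArg Subtype.val hxy))
  have hrange : φ.range = ⊤ := by
    refine range_eq_top φ fun j l => ?_
    have h1 : gen Ω ξ j l ∈ W := Submodule.subset_span ⟨0, j, l, rfl⟩
    obtain ⟨y, hy⟩ := hsurj ⟨gen Ω ξ j l, h1⟩
    exact ⟨y, congrArg Subtype.val hy⟩
  exact AlgHom.range_eq_top φ |>.1 hrange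

end Pool.Agent.N1.Poi
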